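import Mathlib
import Pool.Agent.K9h86.BK.Rg

/-!
# The subspace generated by the invariants of some subgroups
-/

set_option autoImplicit false
set_option linter.unusedSectionVars false

namespace Pool.Agent.K9h86.BQ

open Module Pool.Agent.K9h86.BK Pool.Agent.K9h41.DC Pool.Agent.K4H74.SC

section proj

variable {G : Type} [Group G] [Finite G] {V : Type} [AddCommGroup V] [Module ℚ V]

/-- an invariant subspace has an invariant complement -/
lemma exists_proj (a : Representation ℚ G V) (K : Submodule ℚ V)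
    (hK : ∀ g, ∀ x ∈ K, a g x ∈ K) : ∃ π : V →ₗ[ℚ] V, (∀ x, π x ∈ K) ∧ (∀ x ∈ K, π x = x) ∧
      ∀ g x, π (a g x) = a g (π x) := by
  classical
  have := Fintype.ofFinite G
  obtain ⟨P, hP⟩ := K.subtype.exists_leftInverse_of_injective (by simp)
  have hG : (Nat.card G : ℚ) ≠ 0 := by exact_mod_cast Nat.card_pos.ne'
  let Q : V →ₗ[ℚ] V := K.subtype ∘ₗ P
  have hQ : ∀ x ∈ K, Q x = x := fun x hx => by
    have := LinearMap.congr_fun hP ⟨x, hx⟩
    exact congrArg Subtype.val this
  have hQ' : ∀ x, Q x ∈ K := fun x => (P x).2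
  let π : V →ₗ[ℚ] V := (Nat.card G : ℚ)⁻¹ • ∑ g : G, (a g) ∘ₗ Q ∘ₗ (a g⁻¹)
  have hπ : ∀ x, π x = (Nat.card G : ℚ)⁻¹ • ∑ g : G, a g (Q (a g⁻¹ x)) := fun x => by
    rw [LinearMap.smul_apply, LinearMap.sum_apply]
    rfl
  refine ⟨π, fun x => ?_, fun x hx => ?_, fun h x => ?_⟩
  · rw [hπ]
    exact K.smul_mem _ (K.sum_mem fun g _ => hK _ _ (hQ' _))
  · rw [hπ]
    have h1 : ∀ g : G, a g (Q (a g⁻¹ x)) = x := fun g => by
      rw [hQ _ (hK _ _ hx), ← Module.End.mul_apply, ← map_mul, mul_inv_cancel, map_one]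
      rfl
    rw [Finset.sum_congr rfl (fun g _ => h1 g), Finset.sum_const, Finset.card_univ,
      ← Nat.card_eq_fintype_card, ← Nat.cast_smul_eq_nsmul ℚ, smul_smul, inv_mul_cancel₀ hG,
      one_smul]
  · rw [hπ, hπ, map_smul, map_sum]
    congr 1
    rw [← Equiv.sum_comp (Equiv.mulLeft h) (fun g => a g (Q (a g⁻¹ (a h x))))]
    refine Finset.sum_congr rfl fun g _ => ?_
    have h1 : a (h * g)⁻¹ (a h x) = a g⁻¹ x := by
      rw [← Module.End.mul_apply, ← map_mul]
      congr 2
      group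
    rw [Equiv.coe_mulLeft, h1, map_mul, Module.End.mul_apply]

/-- the restriction to an invariant subspace -/
def rsub (a : Representation ℚ G V) (K : Submodule ℚ V) (hK : ∀ g, ∀ x ∈ K, a g x ∈ K) :
    Representation ℚ G K where
  toFun g := (a g).restrict (hK g)
  map_one' := by
    apply LinearMap.ext
    intro x
    apply Subtype.ext
    change a 1 x.1 = x.1
    rw [map_one]
    rfl
  map_mul' g g' := by
    apply LinearMap.ext
    intro x
    apply Subtype.ext
    change a (g * g') x.1 = a g (a g' x.1)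
    rw [map_mul]
    rfl

lemma rsub_apply (a : Representation ℚ G V) (K : Submodule ℚ V)
    (hK : ∀ g, ∀ x ∈ K, a g x ∈ K) (g : G) (x : K) : (rsub a K hK g x : V) = a g x := rfl

/-- the invariants do not change if they are in the subspace -/
def fixEquiv (a : Representation ℚ G V) (K : Submodule ℚ V) (hK : ∀ g, ∀ x ∈ K, a g x ∈ K)
    {U : Subgroup G} (hU : fixd a U ≤ K) : fixd a U ≃ₗ[ℚ] fixd (rsub a K hK) U where
  toFun x := ⟨⟨x.1, hU x.2⟩, fun u hu => Subtype.ext (x.2 u hu)⟩
  invFun y := ⟨y.1.1, fun u hu => congrArg Subtype.val (y.2 u hu)⟩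
  left_inv _ := rfl
  right_inv _ := rfl
  map_add' _ _ := rfl
  map_smul' _ _ := rfl

/-- the subspace generated by the invariants of the subgroups with `c U ≠ 0` -/
def gen (a : Representation ℚ G V) (c : Subgroup G → ℤ) : Submodule ℚ V :=
  ⨆ p : G × {U : Subgroup G // c U ≠ 0}, (fixd a p.2.1).map (a p.1)

variable {a : Representation ℚ G V} {c : Subgroup G → ℤ}

lemma mem_gen {U : Subgroup G} (hU : c U ≠ 0) (g : G) {x : V} (hx : x ∈ fixd a U) :
    a g x ∈ gen a c :=
  Submodule.mem_iSup_of_mem (p := fun p : G × {U : Subgroup G // c U ≠ 0} =>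
    (fixd a p.2.1).map (a p.1)) (g, ⟨U, hU⟩) (Submodule.mem_map_of_mem hx)

lemma fixd_le_gen {U : Subgroup G} (hU : c U ≠ 0) : fixd a U ≤ gen a c := fun x hx => by
  have h1 := mem_gen (a := a) hU 1 hx
  rw [map_one] at h1
  exact h1

lemma gen_le {N : Submodule ℚ V}
    (h : ∀ (g : G) (U : Subgroup G), c U ≠ 0 → ∀ x ∈ fixd a U, a g x ∈ N) : gen a c ≤ N := by
  refine iSup_le fun p => ?_
  rw [Submodule.map_le_iff_le_comap]
  exact fun x hx => h p.1 p.2.1 p.2.2 x hx

lemma gen_stable (h : G) : ∀ x ∈ gen a c, a h x ∈ gen a c := by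
  have h1 : gen a c ≤ (gen a c).comap (a h) := by
    refine gen_le fun g U hU x hx => ?_
    change a h (a g x) ∈ gen a c
    rw [← Module.End.mul_apply, ← map_mul]
    exact mem_gen hU _ hx
  exact h1

lemma gen_finite (h : ∀ U : Subgroup G, c U ≠ 0 → FiniteDimensional ℚ (fixd a U)) :
    FiniteDimensional ℚ (gen a c) := by
  have : ∀ p : G × {U : Subgroup G // c U ≠ 0},
      FiniteDimensional ℚ ((fixd a p.2.1).map (a p.1)) := by
    intro p
    have := h p.2.1 p.2.2
    infer_instance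
  exact Submodule.finiteDimensional_iSup _

lemma finrank_dl {H : Type} [AddCommGroup H] [Module ℚ H] [FiniteDimensional ℚ H]
    (b : Representation ℚ G H) (U : Subgroup G) :
    Module.finrank ℂ (fixd (dl b) U) = Module.finrank ℚ (fixd b U) := by
  rw [(ev b U (Module.finBasis ℚ (fixd b U))).finrank_eq, Module.finrank_fin_fun]

lemma finite_dl {H : Type} [AddCommGroup H] [Module ℚ H] [FiniteDimensional ℚ H] :
    FiniteDimensional ℂ (H →ₗ[ℚ] ℂ) :=
  Module.Finite.equiv ((Module.finBasis ℚ H).constr ℂ)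

/-- the dimensions of the invariants -/
lemma dim_rel {H : Type} [AddCommGroup H] [Module ℚ H] [FiniteDimensional ℚ H]
    (b : Representation ℚ G H) [Fintype (Subgroup G)] (c : Subgroup G → ℤ) (W : Subgroup G)
    (hc : ∀ g : G, ∑ U, c U * (fx U g : ℤ) = fx W g) :
    ∑ U, c U * (Module.finrank ℚ (fixd b U) : ℤ) = Module.finrank ℚ (fixd b W) := by
  have hfd : FiniteDimensional ℂ (H →ₗ[ℚ] ℂ) := finite_dl
  have h1 := finrank_rel (dl b) LinearMap.id (fun _ _ => rfl) c W hc
  simpa only [finrank_dl] using h1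

/-- the invariants of `W` are generated by the invariants of the subgroups in the relation -/
lemma fix_le_gen [Fintype (Subgroup G)] {W : Subgroup G}
    (hc : ∀ g : G, ∑ U, c U * (fx U g : ℤ) = fx W g) : fixd a W ≤ gen a c := by
  classical
  intro x hx
  obtain ⟨π, h1, h2, h3⟩ := exists_proj a (gen a c) gen_stable
  let z := x - π x
  have hz0 : π z = 0 := by
    change π (x - π x) = 0
    rw [map_sub, h2 _ (h1 x), sub_self]
  let X : Submodule ℚ V := Submodule.span ℚ (Set.range fun g : G => a g z)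
  have hXs : ∀ g, ∀ y ∈ X, a g y ∈ X := by
    intro g
    have h4 : X ≤ X.comap (a g) := by
      refine Submodule.span_le.mpr ?_
      rintro _ ⟨h, rfl⟩
      change a g (a h z) ∈ X
      rw [← Module.End.mul_apply, ← map_mul]
      exact Submodule.subset_span ⟨g * h, rfl⟩
    exact h4
  have hXπ : ∀ y ∈ X, π y = 0 := by
    have h4 : X ≤ LinearMap.ker π := by
      refine Submodule.span_le.mpr ?_
      rintro _ ⟨h, rfl⟩
      change π (a h z) = 0
      rw [h3, hz0, map_zero]
    exact h4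
  have hXf : FiniteDimensional ℚ X := FiniteDimensional.span_of_finite ℚ (Set.finite_range _)
  have h4 := dim_rel (rsub a X hXs) c W hc
  have h5 : ∀ U, c U ≠ 0 → Module.finrank ℚ (fixd (rsub a X hXs) U) = 0 := by
    intro U hU
    have h6 : fixd (rsub a X hXs) U = ⊥ := by
      rw [eq_bot_iff]
      intro y hy
      have h7 : (y : V) ∈ fixd a U := fun u hu => congrArg Subtype.val (hy u hu)
      have h8 : (y : V) = 0 := by
        rw [← h2 _ (fixd_le_gen hU h7)]
        exact hXπ _ y.2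
      exact Subtype.ext h8
    rw [h6]
    exact finrank_bot ℚ _
  have h6 : ∑ U, c U * (Module.finrank ℚ (fixd (rsub a X hXs) U) : ℤ) = 0 := by
    refine Finset.sum_eq_zero fun U _ => ?_
    by_cases hU : c U = 0
    · rw [hU, zero_mul]
    · rw [h5 U hU, Nat.cast_zero, mul_zero]
  rw [h6] at h4
  have h7 : Module.finrank ℚ (fixd (rsub a X hXs) W) = 0 := by exact_mod_cast h4.symm
  have h8 : fixd (rsub a X hXs) W = ⊥ := Submodule.finrank_eq_zero.mp h7
  have hzX : z ∈ X := by
    have : a 1 z ∈ X := Submodule.subset_span ⟨1, rfl⟩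
    rw [map_one] at this
    exact this
  have h9 : (⟨z, hzX⟩ : X) ∈ fixd (rsub a X hXs) W := by
    intro w hw
    apply Subtype.ext
    change a w (x - π x) = x - π x
    rw [map_sub, ← h3, hx w hw]
  rw [h8, Submodule.mem_bot] at h9
  have h10 : x - π x = 0 := congrArg Subtype.val h9
  rw [sub_eq_zero.mp h10]
  exact h1 x

end proj

section nondeg

variable {G : Type} [Group G] [Finite G] {V : Type} [AddCommGroup V] [Module ℚ V]
  {H : Type} [AddCommGroup H] [Module ℚ H] {a : Representation ℚ G V} {b : Representation ℚ G H}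
  {B : V →ₗ[ℚ] H →ₗ[ℚ] ℚ} {c : Subgroup G → ℤ}

/-- non-degeneracy on the generated subspaces -/
lemma gen_nondeg (hB : ∀ g x y, B (a g x) (b g y) = B x y)
    (h : ∀ U, c U ≠ 0 → ∀ x ∈ fixd a U, (∀ y ∈ fixd b U, B x y = 0) → x = 0) :
    ∀ x ∈ gen a c, (∀ y ∈ gen b c, B x y = 0) → x = 0 := by
  intro x hx hx'
  let K : Submodule ℚ V :=
    { carrier := {x | x ∈ gen a c ∧ ∀ y ∈ gen b c, B x y = 0}
      zero_mem' := ⟨zero_mem _, fun y _ => by rw [map_zero, LinearMap.zero_apply]⟩
      add_mem' := fun {x x'} hx hx' => ⟨add_mem hx.1 hx'.1, fun y hy => by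
        rw [map_add, LinearMap.add_apply, hx.2 y hy, hx'.2 y hy, add_zero]⟩
      smul_mem' := fun t x hx => ⟨Submodule.smul_mem _ _ hx.1, fun y hy => by
        rw [map_smul, LinearMap.smul_apply, hx.2 y hy, smul_zero]⟩ }
  have hK : ∀ g, ∀ x ∈ K, a g x ∈ K := by
    intro g x hx
    refine ⟨gen_stable g x hx.1, fun y hy => ?_⟩
    have h1 : b g (b g⁻¹ y) = y := by
      rw [← Module.End.mul_apply, ← map_mul, mul_inv_cancel, map_one]
      rfl
    rw [← h1, hB]
    exact hx.2 _ (gen_stable _ _ hy)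
  obtain ⟨π, h1, h2, h3⟩ := exists_proj a K hK
  have h4 : gen a c ≤ LinearMap.ker π := by
    refine gen_le fun g U hU x hx => ?_
    have h5 : π x = 0 := by
      refine h U hU _ (fun u hu => ?_) fun y hy => (h1 x).2 y (fixd_le_gen hU hy)
      rw [← h3, hx u hu]
    rw [LinearMap.mem_ker, h3, h5, map_zero]
  have h5 : x ∈ K := ⟨hx, hx'⟩
  rw [← h2 x h5]
  exact h4 hx

/-- the determinant in bases of the invariants and non-degeneracy -/
lemma nondeg_fix {U : Subgroup G} {d : ℕ} (ξ : Basis (Fin d) ℚ (fixd a U))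
    (γ : Basis (Fin d) ℚ (fixd b U)) (hdet : (Matrix.of fun i j => B (ξ i : V) (γ j : H)).det ≠ 0) :
    ∀ x ∈ fixd a U, (∀ y ∈ fixd b U, B x y = 0) → x = 0 := by
  intro x hx hx'
  let B' : fixd a U →ₗ[ℚ] fixd b U →ₗ[ℚ] ℚ :=
    ((fixd b U).subtype.lcomp ℚ ℚ).comp (B.comp (fixd a U).subtype)
  have h1 := nondeg_of_det (B0 := B') ξ γ hdet ⟨x, hx⟩ fun y => hx' y.1 y.2
  exact congrArg Subtype.val h1

lemma finrank_le' [FiniteDimensional ℚ V] [FiniteDimensional ℚ H]
    (h : ∀ x, (∀ y, B x y = 0) → x = 0) : Module.finrank ℚ V ≤ Module.finrank ℚ H := by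
  have hf : Function.Injective B := by
    rw [← LinearMap.ker_eq_bot, LinearMap.ker_eq_bot']
    exact fun x hx => h x fun y => LinearMap.congr_fun hx y
  have h1 := LinearMap.finrank_le_finrank_of_injective hf
  rwa [Subspace.dual_finrank_eq] at h1

lemma det_of_nondeg {N : ℕ} (v : Basis (Fin N) ℚ V) (h : Basis (Fin N) ℚ H)
    (hn : ∀ x, (∀ y, B x y = 0) → x = 0) : (Matrix.of fun i j => B (v i) (h j)).det ≠ 0 := by
  intro h0
  obtain ⟨c, hc0, hc⟩ := Matrix.exists_vecMul_eq_zero_iff.mpr h0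
  apply hc0
  have h1 : ∀ j, B (∑ i, c i • v i) (h j) = 0 := by
    intro j
    have h2 := congrFun hc j
    rw [Matrix.vecMul, dotProduct] at h2
    rw [map_sum, LinearMap.sum_apply]
    simpa using h2
  have h2 : ∑ i, c i • v i = 0 := by
    refine hn _ fun y => ?_
    rw [← h.sum_repr y, map_sum]
    refine Finset.sum_eq_zero fun j _ => ?_
    rw [map_smul, h1 j, smul_zero]
  funext i
  exact (Fintype.linearIndependent_iff.mp v.linearIndependent) c h2 i

end nondeg

section functional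

/-- one functional for finitely many matrices -/
lemma exists_functional' {I : Type} [Fintype I] (n : I → ℕ)
    (M : (i : I) → Matrix (Fin (n i)) (Fin (n i)) ℝ) (hM : ∀ i, (M i).det ≠ 0) :
    ∃ l : ℝ →ₗ[ℚ] ℚ, ∀ i, (Matrix.of fun a b => l (M i a b)).det ≠ 0 := by
  classical
  let S : Submodule ℚ ℝ := Submodule.span ℚ
    (Set.range fun p : (Σ i, Fin (n i) × Fin (n i)) => M p.1 p.2.1 p.2.2)
  have hS : FiniteDimensional ℚ S := FiniteDimensional.span_of_finite ℚ (Set.finite_range _)
  let b := Module.finBasis ℚ S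
  have h1 : ∀ k, ∃ l : ℝ →ₗ[ℚ] ℚ, l ∘ₗ S.subtype = b.coord k := fun k =>
    LinearMap.exists_extend (b.coord k)
  choose l hl using h1
  have h2 : ∀ i x y, M i x y = ∑ k, (l k (M i x y) : ℝ) * (b k : ℝ) := by
    intro i x y
    have hm : M i x y ∈ S := Submodule.subset_span ⟨⟨i, x, y⟩, rfl⟩
    have h3 := congrArg S.subtype (b.sum_repr ⟨M i x y, hm⟩)
    rw [map_sum] at h3
    conv_lhs => rw [show M i x y = S.subtype ⟨M i x y, hm⟩ from rfl, ← h3]
    refine Finset.sum_congr rfl fun k _ => ?_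
    have h4 : l k (M i x y) = b.repr ⟨M i x y, hm⟩ k := by
      have := LinearMap.congr_fun (hl k) ⟨M i x y, hm⟩
      exact this
    rw [h4, map_smul]
    exact Rat.smul_def _ _
  let P : I → MvPolynomial (Fin (Module.finrank ℚ S)) ℚ := fun i =>
    (Matrix.of fun x y => ∑ k, MvPolynomial.C (l k (M i x y)) * MvPolynomial.X k).det
  have h3 : ∀ i, P i ≠ 0 := by
    intro i h0
    apply hM i
    have h4 : MvPolynomial.aeval (fun k => (b k : ℝ)) (P i) = (M i).det := by
      rw [AlgHom.map_det]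
      congr 1
      ext x y
      rw [AlgHom.mapMatrix_apply, Matrix.map_apply, Matrix.of_apply, map_sum, h2 i x y]
      refine Finset.sum_congr rfl fun k _ => ?_
      rw [map_mul, MvPolynomial.aeval_C, MvPolynomial.aeval_X, ← h2 i x y]
      rfl
    rw [← h4, h0, map_zero]
  have h4 : ∃ x : Fin (Module.finrank ℚ S) → ℚ, MvPolynomial.eval x (∏ i, P i) ≠ 0 := by
    by_contra hcon
    push Not at hcon
    exact (Finset.prod_ne_zero_iff.mpr fun i _ => h3 i)
      (MvPolynomial.funext fun x => by rw [hcon x, map_zero])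
  obtain ⟨x, hx⟩ := h4
  rw [map_prod] at hx
  refine ⟨∑ k, x k • l k, fun i => ?_⟩
  have hxi := (Finset.prod_ne_zero_iff.mp hx) i (Finset.mem_univ i)
  convert hxi using 1
  rw [RingHom.map_det]
  congr 1
  ext y z
  rw [RingHom.mapMatrix_apply, Matrix.map_apply, Matrix.of_apply, Matrix.of_apply, map_sum,
    LinearMap.sum_apply]
  refine Finset.sum_congr rfl fun k _ => ?_
  rw [LinearMap.smul_apply, map_mul, MvPolynomial.eval_C, MvPolynomial.eval_X, smul_eq_mul,
    mul_comm]

end functional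

end Pool.Agent.K9h86.BQ
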