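import Mathlib
import Pool.Agent.K9h86.BQ.Pr

/-!
# Relations between the determinants of an invariant real pairing on the invariants of subgroups
-/

set_option autoImplicit false
set_option linter.unusedSectionVars false

namespace Pool.Agent.K9h86.BQ

open Module Pool.Agent.K9h86.BK Pool.Agent.K9h41.DC Pool.Agent.K4H74.SC

lemma detOf_one : DetOf (fun _ => 0) 1 :=
  ⟨PUnit, inferInstance, inferInstance, inferInstance, 0, fun k => by
    rw [show (0 : PUnit →ₗ[ℂ] PUnit) ^ k = 0 from Subsingleton.elim _ _, map_zero], by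
    rw [LinearMap.det_eq_one_of_subsingleton]⟩

/-- relations between the traces give relations between the determinants -/
lemma prod_detOf' {I : Type} [Fintype I] (c : I → ℤ) (t : I → ℕ → ℂ) (D : I → ℂ)
    (hD : ∀ i, c i ≠ 0 → D i ≠ 0) (h : ∀ i, DetOf (t i) (D i)) {t' : ℕ → ℂ} {D' : ℂ}
    (h' : DetOf t' D') (hc : ∀ k, ∑ i, (c i : ℂ) * t i k = t' k) : ∏ i, D i ^ c i = D' := by
  classical
  let D1 : I → ℂ := fun i => if c i = 0 then 1 else D i
  let t1 : I → ℕ → ℂ := fun i => if c i = 0 then fun _ => 0 else t i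
  have h1 : ∀ i, DetOf (t1 i) (D1 i) := by
    intro i
    by_cases hi : c i = 0
    · simp only [D1, t1, if_pos hi]
      exact detOf_one
    · simp only [D1, t1, if_neg hi]
      exact h i
  have h2 := prod_detOf c t1 D1 (fun i => by
    by_cases hi : c i = 0
    · simp only [D1, if_pos hi]
      exact one_ne_zero
    · simp only [D1, if_neg hi]
      exact hD i hi) h1 h' (fun k => by
    rw [← hc k]
    refine Finset.sum_congr rfl fun i _ => ?_
    by_cases hi : c i = 0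
    · rw [hi, Int.cast_zero, zero_mul, zero_mul]
    · simp only [t1, if_neg hi])
  rw [← h2]
  refine Finset.prod_congr rfl fun i _ => ?_
  by_cases hi : c i = 0
  · rw [hi, zpow_zero, zpow_zero]
  · simp only [D1, if_neg hi]

/-- the determinants -/
lemma det_rel' {G : Type} [Group G] [Finite G] {Y : Type} [AddCommGroup Y] [Module ℂ Y]
    [FiniteDimensional ℂ Y] (τ : Representation ℂ G Y) (A : Y →ₗ[ℂ] Y)
    (hA : ∀ g y, A (τ g y) = τ g (A y)) [Fintype (Subgroup G)] (c : Subgroup G → ℤ)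
    (W : Subgroup G) (h : ∀ g : G, ∑ U, c U * (fx U g : ℤ) = fx W g)
    (h0 : ∀ U : Subgroup G, c U ≠ 0 → LinearMap.det (rs τ A hA U) ≠ 0) :
    ∏ U, LinearMap.det (rs τ A hA U) ^ c U = LinearMap.det (rs τ A hA W) := by
  classical
  have := Fintype.ofFinite G
  refine prod_detOf' c _ _ h0 (fun U => detOf_rs τ A hA U) (detOf_rs τ A hA W) fun k => ?_
  simp only [Finset.mul_sum]
  rw [Finset.sum_comm]
  refine Finset.sum_congr rfl fun g _ => ?_
  have h3 : ((fx W g : ℤ) : ℂ) = ∑ U, (c U : ℂ) * (fx U g : ℂ) := by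
    rw [← h g]
    push_cast
    rfl
  rw [show (fx W g : ℂ) = ((fx W g : ℤ) : ℂ) by push_cast; rfl, h3, Finset.sum_mul,
    Finset.mul_sum]
  exact Finset.sum_congr rfl fun U _ => by ring

section reg

variable {G : Type} [Group G] [Finite G] {V : Type} [AddCommGroup V] [Module ℚ V]
  {H : Type} [AddCommGroup H] [Module ℚ H] {a : Representation ℚ G V} {b : Representation ℚ G H}
  {B : V →ₗ[ℚ] H →ₗ[ℚ] ℝ} (hB : ∀ g x y, B (a g x) (b g y) = B x y)

include hB in
/-- the endomorphism which transforms the rational structure given by a functional to the one given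
by the pairing -/
theorem exists_A' {N : ℕ} (v : Basis (Fin N) ℚ V) (h : Basis (Fin N) ℚ H) {l : ℝ →ₗ[ℚ] ℚ}
    (hl : (Matrix.of fun i j => l (B (v i) (h j))).det ≠ 0) :
    ∃ A : (H →ₗ[ℚ] ℂ) →ₗ[ℂ] (H →ₗ[ℚ] ℂ),
      (∀ x, A (B.compr₂ (e0 l) x) = B.compr₂ e1 x) ∧ (∀ g y, A (dl b g y) = dl b g (A y)) := by
  classical
  let E : (Fin N → ℂ) ≃ₗ[ℂ] (H →ₗ[ℚ] ℂ) := h.constr ℂ
  have hfd : FiniteDimensional ℂ (H →ₗ[ℚ] ℂ) := Module.Finite.equiv E
  have hfr : Module.finrank ℂ (H →ₗ[ℚ] ℂ) = N := by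
    rw [← E.finrank_eq, Module.finrank_fin_fun]
  let M0 : Matrix (Fin N) (Fin N) ℂ := Matrix.of fun i j => ((l (B (v i) (h j)) : ℚ) : ℂ)
  have hM0 : M0.det ≠ 0 := by
    have h1 : M0 = (Matrix.of fun i j => l (B (v i) (h j))).map (algebraMap ℚ ℂ) := rfl
    rw [h1, ← RingHom.mapMatrix_apply, ← RingHom.map_det]
    exact (map_ne_zero _).mpr hl
  have hli : LinearIndependent ℂ fun i => B.compr₂ (e0 l) (v i) := by
    have h1 : LinearIndependent ℂ M0.row :=
      Matrix.linearIndependent_rows_of_isUnit ((Matrix.isUnit_iff_isUnit_det _).mpr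
        (isUnit_iff_ne_zero.mpr hM0))
    have h2 : M0.row = E.symm ∘ fun i => B.compr₂ (e0 l) (v i) := rfl
    rw [h2] at h1
    exact LinearIndependent.of_comp E.symm.toLinearMap h1
  let bas : Basis (Fin N) ℂ (H →ₗ[ℚ] ℂ) :=
    basisOfLinearIndependentOfCardEqFinrank' _ hli (by rw [hfr, Fintype.card_fin])
  have hbas : ∀ i, bas i = B.compr₂ (e0 l) (v i) := fun i => by
    simp [bas]
  let A : (H →ₗ[ℚ] ℂ) →ₗ[ℂ] (H →ₗ[ℚ] ℂ) := bas.constr ℂ fun i => B.compr₂ e1 (v i)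
  have hA1 : ∀ x, A (B.compr₂ (e0 l) x) = B.compr₂ e1 x := by
    have h1 : (A.restrictScalars ℚ) ∘ₗ (B.compr₂ (e0 l)) = B.compr₂ e1 := by
      refine v.ext fun i => ?_
      change A (B.compr₂ (e0 l) (v i)) = _
      rw [← hbas i]
      exact bas.constr_basis ℂ _ i
    intro x
    exact LinearMap.congr_fun h1 x
  refine ⟨A, hA1, fun g y => ?_⟩
  have h1 : A ∘ₗ (dl b g) = (dl b g) ∘ₗ A := by
    refine bas.ext fun i => ?_
    change A (dl b g (bas i)) = dl b g (A (bas i))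
    rw [hbas, ← compr_eq hB, hA1, hA1, compr_eq hB]
  exact LinearMap.congr_fun h1 y

include hB in
/-- the relation between the determinants, if a functional is given which is non-degenerate on both
sides -/
theorem core [FiniteDimensional ℚ V] [FiniteDimensional ℚ H] {l : ℝ →ₗ[ℚ] ℚ}
    (hnl : ∀ x, (∀ y, B.compr₂ l x y = 0) → x = 0)
    (hnr : ∀ y, (∀ x, B.compr₂ l x y = 0) → y = 0) [Fintype (Subgroup G)]
    (c : Subgroup G → ℤ) (W : Subgroup G) (hc : ∀ g : G, ∑ U, c U * (fx U g : ℤ) = fx W g)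
    (d : Subgroup G → ℕ) (e : ℕ) (he : ∑ U, c U * (d U : ℤ) = e) (z : Subgroup G → ℂ)
    (hz : ∀ U, c U ≠ 0 → z U ≠ 0)
    (hd : ∀ U, c U ≠ 0 → ∃ (ξ : Basis (Fin (d U)) ℚ (fixd a U))
      (γ : Basis (Fin (d U)) ℚ (fixd b U)),
      (((Matrix.of fun i j => B (ξ i : V) (γ j : H)).det : ℝ) : ℂ) = z U) :
    ∃ (ξ : Basis (Fin e) ℚ (fixd a W)) (γ : Basis (Fin e) ℚ (fixd b W)) (q : ℚ), q ≠ 0 ∧
      (((Matrix.of fun i j => B (ξ i : V) (γ j : H)).det : ℝ) : ℂ) = q * ∏ U, z U ^ c U := by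
  classical
  have hfd : FiniteDimensional ℂ (H →ₗ[ℚ] ℂ) := finite_dl
  have hB0 : ∀ g x y, B.compr₂ l (a g x) (b g y) = B.compr₂ l x y := by
    intro g x y
    change l (B (a g x) (b g y)) = l (B x y)
    rw [hB]
  have hfr : Module.finrank ℚ V = Module.finrank ℚ H :=
    le_antisymm (finrank_le' (B := B.compr₂ l) hnl) (finrank_le' (B := (B.compr₂ l).flip) hnr)
  let v : Basis (Fin (Module.finrank ℚ H)) ℚ V := Module.finBasisOfFinrankEq ℚ _ hfr
  let h : Basis (Fin (Module.finrank ℚ H)) ℚ H := Module.finBasis ℚ H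
  obtain ⟨A, hA1, hA2⟩ := exists_A' hB v h (l := l) (det_of_nondeg (B := B.compr₂ l) v h hnl)
  have hra : ∀ U : Subgroup G, Module.finrank ℚ (fixd a U) = Module.finrank ℚ (fixd b U) :=
    fun U => le_antisymm (finrank_le hB0 hnl U)
      (finrank_le (B := (B.compr₂ l).flip) (fun g x y => hB0 g y x) hnr U)
  -- the given determinants
  have h1 : ∀ U, ∃ r : ℚ, r ≠ 0 ∧ (c U ≠ 0 →
      LinearMap.det (rs (dl b) A hA2 U) * (r : ℂ) = z U ∧ Module.finrank ℚ (fixd b U) = d U) := by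
    intro U
    by_cases hU : c U = 0
    · exact ⟨1, one_ne_zero, fun h0 => absurd hU h0⟩
    · obtain ⟨ξ, γ, h2⟩ := hd U hU
      refine ⟨_, det_ne hB0 hnl U ξ γ, fun _ => ⟨?_, ?_⟩⟩
      · rw [← h2]
        exact det_fix hB hA1 hA2 U ξ γ
      · rw [Module.finrank_eq_card_basis γ, Fintype.card_fin]
  choose r hr0 hr using h1
  have hdim : Module.finrank ℚ (fixd b W) = e := by
    have h2 := dim_rel b c W hc
    have h3 : ∑ U, c U * (Module.finrank ℚ (fixd b U) : ℤ) = ∑ U, c U * (d U : ℤ) := by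
      refine Finset.sum_congr rfl fun U _ => ?_
      by_cases hU : c U = 0
      · rw [hU, zero_mul, zero_mul]
      · rw [(hr U hU).2]
    rw [h3, he] at h2
    exact_mod_cast h2.symm
  let ξ : Basis (Fin e) ℚ (fixd a W) := Module.finBasisOfFinrankEq ℚ _ ((hra W).trans hdim)
  let γ : Basis (Fin e) ℚ (fixd b W) := Module.finBasisOfFinrankEq ℚ _ hdim
  have hW := det_fix hB hA1 hA2 W ξ γ
  have hW0 := det_ne hB0 hnl W ξ γ
  have h2 := det_rel' (dl b) A hA2 c W hc fun U hU h0 => by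
    apply hz U hU
    rw [← (hr U hU).1, h0, zero_mul]
  refine ⟨ξ, γ, (Matrix.of fun i j => B.compr₂ l (ξ i : V) (γ j : H)).det / ∏ U, r U ^ c U,
    div_ne_zero hW0 (Finset.prod_ne_zero_iff.mpr fun U _ => zpow_ne_zero _ (hr0 U)), ?_⟩
  rw [← hW, ← h2]
  have h3 : ∀ U, z U ^ c U = LinearMap.det (rs (dl b) A hA2 U) ^ c U * (r U : ℂ) ^ c U := by
    intro U
    by_cases hU : c U = 0
    · rw [hU, zpow_zero, zpow_zero, zpow_zero, one_mul]
    · rw [← (hr U hU).1, mul_zpow]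
  rw [Finset.prod_congr rfl (fun U _ => h3 U), Finset.prod_mul_distrib]
  have h4 : (∏ U, (r U : ℂ) ^ c U) ≠ 0 :=
    Finset.prod_ne_zero_iff.mpr fun U _ => zpow_ne_zero _ (by exact_mod_cast hr0 U)
  have h5 : (((Matrix.of fun i j => B.compr₂ l (ξ i : V) (γ j : H)).det / ∏ U, r U ^ c U : ℚ) : ℂ)
      = (((Matrix.of fun i j => l (B (ξ i : V) (γ j : H))).det : ℚ) : ℂ) /
        ∏ U, (r U : ℂ) ^ c U := by
    rw [Rat.cast_div, Rat.cast_prod]
    congr 1
    exact Finset.prod_congr rfl fun U _ => Rat.cast_zpow _ _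
  rw [h5]
  generalize (((Matrix.of fun i j => l (B (ξ i : V) (γ j : H))).det : ℚ) : ℂ) = w
  field_simp

include hB in
/-- **the relation between the determinants**: only the invariants of the subgroups in the relation
matter -/
theorem rel [Fintype (Subgroup G)]
    (c : Subgroup G → ℤ) (W : Subgroup G) (hc : ∀ g : G, ∑ U, c U * (fx U g : ℤ) = fx W g)
    (d : Subgroup G → ℕ) (e : ℕ) (he : ∑ U, c U * (d U : ℤ) = e) (z : Subgroup G → ℂ)
    (hz : ∀ U, c U ≠ 0 → z U ≠ 0)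
    (hd : ∀ U, c U ≠ 0 → ∃ (ξ : Basis (Fin (d U)) ℚ (fixd a U))
      (γ : Basis (Fin (d U)) ℚ (fixd b U)),
      (((Matrix.of fun i j => B (ξ i : V) (γ j : H)).det : ℝ) : ℂ) = z U) :
    ∃ (ξ : Basis (Fin e) ℚ (fixd a W)) (γ : Basis (Fin e) ℚ (fixd b W)) (q : ℚ), q ≠ 0 ∧
      (((Matrix.of fun i j => B (ξ i : V) (γ j : H)).det : ℝ) : ℂ) = q * ∏ U, z U ^ c U := by
  classical
  choose ξ γ hξ using fun U : {U : Subgroup G // c U ≠ 0} => hd U.1 U.2
  obtain ⟨l, hl⟩ := exists_functional' (I := {U : Subgroup G // c U ≠ 0}) (fun U => d U.1)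
    (fun U => Matrix.of fun i j => B (ξ U i : V) (γ U j : H)) (fun U h0 => by
      apply hz U.1 U.2
      rw [← hξ U, h0, Complex.ofReal_zero])
  have hB0 : ∀ g x y, B.compr₂ l (a g x) (b g y) = B.compr₂ l x y := by
    intro g x y
    change l (B (a g x) (b g y)) = l (B x y)
    rw [hB]
  have hV : FiniteDimensional ℚ (gen a c) := gen_finite fun U hU =>
    Module.Finite.of_basis (ξ ⟨U, hU⟩)
  have hH : FiniteDimensional ℚ (gen b c) := gen_finite fun U hU =>
    Module.Finite.of_basis (γ ⟨U, hU⟩)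
  have hnl := gen_nondeg (B := B.compr₂ l) (c := c) hB0 fun U hU =>
    nondeg_fix (B := B.compr₂ l) (ξ ⟨U, hU⟩) (γ ⟨U, hU⟩) (hl ⟨U, hU⟩)
  have hnr := gen_nondeg (B := (B.compr₂ l).flip) (a := b) (b := a) (c := c)
    (fun g x y => hB0 g y x) fun U hU =>
    nondeg_fix (B := (B.compr₂ l).flip) (γ ⟨U, hU⟩) (ξ ⟨U, hU⟩) (by
      rw [← Matrix.det_transpose]
      exact hl ⟨U, hU⟩)
  let a' := rsub a (gen a c) gen_stable
  let b' := rsub b (gen b c) gen_stable
  let B' : gen a c →ₗ[ℚ] gen b c →ₗ[ℚ] ℝ :=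
    ((gen b c).subtype.lcomp ℚ ℝ).comp (B.comp (gen a c).subtype)
  have hB' : ∀ g x y, B' (a' g x) (b' g y) = B' x y := fun g x y => hB g x y
  obtain ⟨ξ', γ', q, hq, h1⟩ := core hB' (l := l)
    (fun x hx => Subtype.ext (hnl x.1 x.2 fun y hy => hx ⟨y, hy⟩))
    (fun y hy => Subtype.ext (hnr y.1 y.2 fun x hx => hy ⟨x, hx⟩)) c W hc d e he z hz
    (fun U hU => ⟨(ξ ⟨U, hU⟩).map (fixEquiv a (gen a c) gen_stable (fixd_le_gen hU)),
      (γ ⟨U, hU⟩).map (fixEquiv b (gen b c) gen_stable (fixd_le_gen hU)), by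
      rw [← hξ ⟨U, hU⟩]
      congr 3⟩)
  refine ⟨ξ'.map (fixEquiv a (gen a c) gen_stable (fix_le_gen hc)).symm,
    γ'.map (fixEquiv b (gen b c) gen_stable (fix_le_gen hc)).symm, q, hq, ?_⟩
  rw [← h1]
  congr 3

end reg

end Pool.Agent.K9h86.BQ
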