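import Mathlib

/-!
# Beilinson's conjecture for `K_2` of the quotients of a curve by a finite group: the definitions
-/

set_option autoImplicit false

namespace Pool.Agent.K9h86.BQ

/-- The value at `g` of the permutation character of `G` on `G / U`: the number of fixed points. -/
noncomputable def permChar {G : Type} [Group G] (U : Subgroup G) (g : G) : ℕ :=
  Nat.card {x : G ⧸ U // g • x = x}

/-- The data of a smooth projective curve `X` over a number field with an action of the group `G`,
which may act on the number field as well. `X` and its quotients `X / U` are considered as curves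
over `ℚ`, which are not geometrically connected in general. -/
structure CurveWithAction (G : Type) [Group G] where
  /-- a finite set of prime numbers, with all primes of bad reduction of `X` over `ℚ` -/
  bad : Finset ℕ
  /-- the dimension of the cohomology `H¹` of `X` over the algebraic closure of `ℚ` -/
  n : ℕ
  /-- the action of `G` on `H¹`, with coefficients in `ℂ` (the `ℓ`-adic cohomology, with an
  embedding of `ℚ_ℓ` in `ℂ`) -/
  actM : G → Matrix (Fin n) (Fin n) ℂ
  actM_one : actM 1 = 1
  actM_mul : ∀ g h : G, actM (g * h) = actM g * actM h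
  /-- the geometric Frobenius at the prime number `p` on `H¹` -/
  frob : ℕ → Matrix (Fin n) (Fin n) ℂ
  frob_actM : ∀ (p : ℕ) (g : G), frob p * actM g = actM g * frob p
  pure : ∀ p : ℕ, p.Prime → p ∉ bad → ∀ α : ℂ, (frob p).charpoly.IsRoot α →
    ‖α‖ = (p : ℝ) ^ ((1 : ℝ) / 2)
  /-- the `ℚ`-vector space `H²_ℳ(X, ℚ(2))_ℤ` -/
  V : Type
  [addCommGroupV : AddCommGroup V]
  [moduleV : Module ℚ V]
  /-- the action of `G` on `H²_ℳ(X, ℚ(2))_ℤ` -/
  actV : G → V → V
  actV_one : ∀ ξ : V, actV 1 ξ = ξ
  actV_mul : ∀ (g h : G) (ξ : V), actV (g * h) ξ = actV g (actV h ξ)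
  actV_add : ∀ (g : G) (ξ η : V), actV g (ξ + η) = actV g ξ + actV g η
  /-- the dimension of `H₁(X(ℂ), ℚ)⁻` -/
  m : ℕ
  /-- the action of `G` on `H₁(X(ℂ), ℚ)⁻`, in a basis -/
  actH : G → Matrix (Fin m) (Fin m) ℚ
  actH_one : actH 1 = 1
  actH_mul : ∀ g h : G, actH (g * h) = actH g * actH h
  /-- the regulator: the values of `r(ξ)` on the basis of `H₁(X(ℂ), ℚ)⁻` -/
  reg : V → Fin m → ℝ
  reg_add : ∀ (ξ η : V) (i : Fin m), reg (ξ + η) i = reg ξ i + reg η i
  reg_act : ∀ (g : G) (ξ : V) (i : Fin m), ∑ j, reg (actV g ξ) j * actH g j i = reg ξ i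

attribute [instance] CurveWithAction.addCommGroupV CurveWithAction.moduleV

variable {G : Type} [Group G] (X : CurveWithAction G) (U : Subgroup G)

/-- The projector of `H¹` of the curve `X` to the part fixed by `U`, which is `H¹` of the curve
`X / U`. -/
noncomputable def proj : Matrix (Fin X.n) (Fin X.n) ℂ :=
  (Nat.card U : ℂ)⁻¹ • ∑ᶠ u : U, X.actM u

/-- The Euler factor of `L(X / U, s)` at the prime number `p` and `s = 2`: the inverse of the
determinant of `1 - p^(-2) frob p` on the part of `H¹` fixed by `U`. The finitely many Euler factors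
at the primes in `bad`, which are rational numbers, are left out. -/
noncomputable def eulerFactor (p : ℕ) : ℂ :=
  if p ∈ X.bad then 1 else (1 - ((p : ℂ) ^ 2)⁻¹ • (X.frob p * proj X U)).det⁻¹

/-- `L(X / U, 2)`, an absolutely convergent Euler product, up to a rational factor -/
noncomputable def LValue : ℂ := ∏' p : Nat.Primes, eulerFactor X U p

/-- `H²_ℳ(X / U, ℚ(2))_ℤ`, the part of `H²_ℳ(X, ℚ(2))_ℤ` fixed by `U` -/
def motivic : Submodule ℚ X.V where
  carrier := {ξ | ∀ u ∈ U, X.actV u ξ = ξ}
  zero_mem' := fun u _ => (AddMonoidHom.mk' (X.actV u) (X.actV_add u)).map_zero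
  add_mem' := fun {a b} ha hb u hu => by rw [X.actV_add, ha u hu, hb u hu]
  smul_mem' := fun c a ha u hu =>
    ((AddMonoidHom.mk' (X.actV u) (X.actV_add u)).toRatLinearMap.map_smul c a).trans
      (congrArg (c • ·) (ha u hu))

/-- `H₁((X / U)(ℂ), ℚ)⁻`, the part of `H₁(X(ℂ), ℚ)⁻` fixed by `U` -/
def homologyMinus : Submodule ℚ (Fin X.m → ℚ) where
  carrier := {γ | ∀ u ∈ U, (X.actH u).mulVec γ = γ}
  zero_mem' := fun u _ => Matrix.mulVec_zero _
  add_mem' := fun {a b} ha hb u hu => by rw [Matrix.mulVec_add, ha u hu, hb u hu]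
  smul_mem' := fun c a ha u hu => by rw [Matrix.mulVec_smul, ha u hu]

/-- The dimension of `H₁((X / U)(ℂ), ℚ)⁻`, which is `g [k : ℚ]` if the curve `X / U` is
geometrically connected over the number field `k` and of genus `g`. -/
noncomputable def rank : ℕ := Module.finrank ℚ (homologyMinus X U)

/-- Beilinson's regulator pairing -/
noncomputable def pairing (ξ : X.V) (γ : Fin X.m → ℚ) : ℝ := ∑ i, X.reg ξ i * γ i

/-- The pairing `B` has, in bases over `ℚ` with `d` elements of the `ℚ`-vector spaces `S` and `T`,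
a determinant in `ℚ^× z`. -/
def HasDet {V H : Type} [AddCommGroup V] [Module ℚ V] [AddCommGroup H] [Module ℚ H]
    (B : V → H → ℝ) (S : Submodule ℚ V) (T : Submodule ℚ H) (d : ℕ) (z : ℂ) : Prop :=
  ∃ (ξ : Module.Basis (Fin d) ℚ S) (γ : Module.Basis (Fin d) ℚ T) (q : ℚ), q ≠ 0 ∧
    (((Matrix.of fun i j => B (ξ i) (γ j)).det : ℝ) : ℂ) = q * z

/-- **Beilinson's conjecture (Q1 and Q2) for `K_2` of the curve `X / U`**: the dimension of
`H²_ℳ(X / U, ℚ(2))_ℤ` is `g [k : ℚ]` as well, and the determinant of the regulator pairing in bases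
over `ℚ` is a nonzero rational number times `(2π)^(-2g[k:ℚ]) L(X / U, 2)`. -/
def Beilinson : Prop :=
  HasDet (pairing X) (motivic X U) (homologyMinus X U) (rank X U)
    (LValue X U / (2 * Real.pi) ^ (2 * rank X U))

end Pool.Agent.K9h86.BQ
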