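import Mathlib
import Pool.Agent.K9h86.BQ.Df
import Pool.Agent.K9h86.BQ.Rb

/-!
# The L-values of the quotient curves
-/

set_option autoImplicit false
set_option linter.unusedSectionVars false

namespace Pool.Agent.K9h86.BQ

open Module Filter Topology Pool.Agent.K9h86.BK Pool.Agent.K9h41.DC Pool.Agent.K4H74.SC

variable {G : Type} [Group G] [Finite G] (X : CurveWithAction G)

/-- the action on `H¹` -/
noncomputable def tau : Representation ℂ G (Fin X.n → ℂ) where
  toFun g := Matrix.toLin' (X.actM g)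
  map_one' := by
    rw [X.actM_one, Matrix.toLin'_one]
    rfl
  map_mul' g h := by
    rw [X.actM_mul, Matrix.toLin'_mul]
    rfl

lemma tau_apply (g : G) (x : Fin X.n → ℂ) : tau X g x = (X.actM g).mulVec x := rfl

/-- the Frobenius -/
noncomputable def phi (p : ℕ) : (Fin X.n → ℂ) →ₗ[ℂ] (Fin X.n → ℂ) := Matrix.toLin' (X.frob p)

lemma phi_comm (p : ℕ) (g : G) (x : Fin X.n → ℂ) : phi X p (tau X g x) = tau X g (phi X p x) := by
  change (X.frob p).mulVec ((X.actM g).mulVec x) = (X.actM g).mulVec ((X.frob p).mulVec x)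
  rw [Matrix.mulVec_mulVec, Matrix.mulVec_mulVec, X.frob_actM]

/-- `1 - p^(-2) frob p` -/
noncomputable def opA (p : ℕ) : (Fin X.n → ℂ) →ₗ[ℂ] (Fin X.n → ℂ) :=
  LinearMap.id - ((p : ℂ) ^ 2)⁻¹ • phi X p

lemma opA_apply (p : ℕ) (x : Fin X.n → ℂ) : opA X p x = x - ((p : ℂ) ^ 2)⁻¹ • phi X p x := rfl

lemma opA_comm (p : ℕ) : ∀ (g : G) (x : Fin X.n → ℂ), opA X p (tau X g x) = tau X g (opA X p x) := by
  intro g x
  rw [opA_apply, opA_apply, phi_comm, map_sub, map_smul]

lemma proj_mulVec (U : Subgroup G) (x : Fin X.n → ℂ) : (proj X U).mulVec x = avg (tau X) U x := by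
  classical
  have := Fintype.ofFinite U
  have h1 : Matrix.toLin' (proj X U) = (Nat.card U : ℂ)⁻¹ • ∑ u : U, tau X (u : G) := by
    rw [proj, finsum_eq_sum_of_fintype, map_smul, map_sum]
    rfl
  have h2 := LinearMap.congr_fun h1 x
  rw [LinearMap.smul_apply, LinearMap.sum_apply] at h2
  rw [avg_apply]
  exact h2

lemma det_eq (U : Subgroup G) (p : ℕ) :
    (1 - ((p : ℂ) ^ 2)⁻¹ • (X.frob p * proj X U)).det
      = LinearMap.det (rs (tau X) (opA X p) (opA_comm X p) U) := by
  classical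
  let T := Matrix.toLin' (1 - ((p : ℂ) ^ 2)⁻¹ • (X.frob p * proj X U))
  have hT : ∀ x, T x = x - ((p : ℂ) ^ 2)⁻¹ • phi X p (avg (tau X) U x) := by
    intro x
    change (1 - ((p : ℂ) ^ 2)⁻¹ • (X.frob p * proj X U)).mulVec x = _
    rw [Matrix.sub_mulVec, Matrix.one_mulVec, Matrix.smul_mulVec, ← Matrix.mulVec_mulVec,
      proj_mulVec]
    rfl
  have hphi : ∀ x, phi X p (avg (tau X) U x) ∈ fixd (tau X) U := by
    intro x u hu
    rw [← phi_comm, avg_mem (tau X) U x u hu]
  have he : fixd (tau X) U ≤ (fixd (tau X) U).comap T := by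
    intro x hx
    change T x ∈ fixd (tau X) U
    rw [hT]
    exact Submodule.sub_mem _ hx (Submodule.smul_mem _ _ (hphi x))
  rw [← LinearMap.det_toLin']
  change LinearMap.det T = _
  rw [LinearMap.det_eq_det_mul_det _ T he]
  have h1 : T.restrict he = rs (tau X) (opA X p) (opA_comm X p) U := by
    apply LinearMap.ext
    intro x
    apply Subtype.ext
    change T x.1 = opA X p x.1
    rw [hT, avg_of_mem (tau X) U x.2]
    rfl
  have h2 : (fixd (tau X) U).mapQ (fixd (tau X) U) T he = LinearMap.id := by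
    apply Submodule.linearMap_qext
    apply LinearMap.ext
    intro x
    change Submodule.Quotient.mk (T x) = Submodule.Quotient.mk x
    rw [Submodule.Quotient.eq, hT, sub_sub_cancel_left]
    exact Submodule.neg_mem _ (Submodule.smul_mem _ _ (hphi x))
  rw [h1, h2, LinearMap.det_id, mul_one]

lemma root_norm (U : Subgroup G) {p : ℕ} (hp : p.Prime) (hb : p ∉ X.bad) {α : ℂ}
    (hα : (X.frob p * proj X U).charpoly.IsRoot α) : ‖α‖ ≤ (p : ℝ) ^ ((1 : ℝ) / 2) := by
  classical
  rcases eq_or_ne α 0 with rfl | h0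
  · rw [norm_zero]
    positivity
  rw [Polynomial.IsRoot.def, Matrix.eval_charpoly] at hα
  obtain ⟨v, hv0, hv⟩ := Matrix.exists_mulVec_eq_zero_iff.mpr hα
  rw [Matrix.sub_mulVec, ← Matrix.mulVec_mulVec, proj_mulVec, sub_eq_zero] at hv
  have h1 : (Matrix.scalar (Fin X.n) α).mulVec v = α • v := by
    funext i
    rw [Matrix.scalar_apply, Matrix.mulVec_diagonal]
    rfl
  rw [h1] at hv
  have h2 : v ∈ fixd (tau X) U := by
    have h3 : α • v ∈ fixd (tau X) U := by
      rw [hv]
      intro u hu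
      change tau X u (phi X p (avg (tau X) U v)) = phi X p (avg (tau X) U v)
      rw [← phi_comm, avg_mem (tau X) U v u hu]
    have h4 := Submodule.smul_mem _ α⁻¹ h3
    rwa [smul_smul, inv_mul_cancel₀ h0, one_smul] at h4
  rw [avg_of_mem (tau X) U h2] at hv
  refine le_of_eq (X.pure p hp hb α ?_)
  rw [Polynomial.IsRoot.def, Matrix.eval_charpoly]
  refine Matrix.exists_mulVec_eq_zero_iff.mp ⟨v, hv0, ?_⟩
  rw [Matrix.sub_mulVec, h1, hv, sub_self]

lemma det_prod {n : ℕ} (M : Matrix (Fin n) (Fin n) ℂ) {t : ℂ} (ht : t ≠ 0) :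
    (1 - t • M).det = (M.charpoly.roots.map fun α => 1 - t * α).prod := by
  have h1 : (1 - t • M) = t • (Matrix.scalar (Fin n) t⁻¹ - M) := by
    rw [smul_sub]
    congr 1
    ext i j
    rw [Matrix.smul_apply, Matrix.scalar_apply, Matrix.diagonal_apply, Matrix.one_apply]
    split_ifs
    · rw [smul_eq_mul, mul_inv_cancel₀ ht]
    · rw [smul_zero]
  have h2 : M.charpoly.Splits := IsAlgClosed.splits _
  have h3 := h2.eq_prod_roots_of_monic M.charpoly_monic
  have h4 : M.charpoly.eval t⁻¹ = (M.charpoly.roots.map fun α => t⁻¹ - α).prod := by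
    conv_lhs => rw [h3]
    rw [Polynomial.eval_multiset_prod, Multiset.map_map]
    congr 1
    refine Multiset.map_congr rfl fun α _ => ?_
    simp
  have h5 : Multiset.card M.charpoly.roots = n := by
    rw [← h2.natDegree_eq_card_roots, Matrix.charpoly_natDegree_eq_dim, Fintype.card_fin]
  have h6 : t ^ n = (M.charpoly.roots.map fun _ => t).prod := by
    rw [Multiset.map_const', Multiset.prod_replicate, h5]
  rw [h1, Matrix.det_smul, Fintype.card_fin, ← Matrix.eval_charpoly, h4, h6,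
    ← Multiset.prod_map_mul]
  congr 1
  refine Multiset.map_congr rfl fun α _ => ?_
  rw [mul_sub, mul_inv_cancel₀ ht]

section fac

variable (U : Subgroup G)

lemma small {p : ℕ} (hp : p.Prime) (hb : p ∉ X.bad) {α : ℂ}
    (hα : α ∈ (X.frob p * proj X U).charpoly.roots) :
    ‖((p : ℂ) ^ 2)⁻¹ * α‖ ≤ (p : ℝ) ^ (-(3 : ℝ) / 2) := by
  have hp0 : (0 : ℝ) < p := by exact_mod_cast hp.pos
  have h1 := root_norm X U hp hb (Polynomial.isRoot_of_mem_roots hα)
  rw [norm_mul, norm_inv, norm_pow, Complex.norm_natCast]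
  have h2 : ((p : ℝ) ^ 2)⁻¹ = (p : ℝ) ^ (-(2 : ℝ)) := by
    rw [Real.rpow_neg hp0.le, Real.rpow_ofNat]
  rw [h2]
  calc _ ≤ (p : ℝ) ^ (-(2 : ℝ)) * (p : ℝ) ^ ((1 : ℝ) / 2) :=
        mul_le_mul_of_nonneg_left h1 (by positivity)
    _ = _ := by
        rw [← Real.rpow_add hp0]
        norm_num

lemma three_half {p : ℕ} (hp : p.Prime) : (p : ℝ) ^ (-(3 : ℝ) / 2) ≤ 1 / 2 := by
  have h2 : (2 : ℝ) ≤ p := by exact_mod_cast hp.two_le
  calc (p : ℝ) ^ (-(3 : ℝ) / 2) ≤ (p : ℝ) ^ (-(1 : ℝ)) :=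
        Real.rpow_le_rpow_of_exponent_le (by linarith) (by norm_num)
    _ = (p : ℝ)⁻¹ := Real.rpow_neg_one _
    _ ≤ 1 / 2 := by
        rw [one_div]
        exact inv_anti₀ two_pos h2

/-- the logarithm of the Euler factor -/
noncomputable def lf (p : ℕ) : ℂ :=
  if p ∈ X.bad then 0
  else -((X.frob p * proj X U).charpoly.roots.map fun α =>
    Complex.log (1 - ((p : ℂ) ^ 2)⁻¹ * α)).sum

lemma exp_lf {p : ℕ} (hp : p.Prime) : Complex.exp (lf X U p) = eulerFactor X U p := by
  by_cases hb : p ∈ X.bad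
  · rw [lf, if_pos hb, eulerFactor, if_pos hb, Complex.exp_zero]
  · have hp0 : (((p : ℂ) ^ 2)⁻¹) ≠ 0 := inv_ne_zero (pow_ne_zero _ (by exact_mod_cast hp.ne_zero))
    rw [lf, if_neg hb, eulerFactor, if_neg hb, Complex.exp_neg, Complex.exp_multiset_sum,
      Multiset.map_map, det_prod _ hp0]
    congr 2
    refine Multiset.map_congr rfl fun α hα => ?_
    change Complex.exp (Complex.log _) = _
    refine Complex.exp_log fun h0 => ?_
    have h1 := small X U hp hb hα
    rw [← sub_eq_zero.mp h0, norm_one] at h1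
    linarith [three_half hp]

lemma norm_lf {p : ℕ} (hp : p.Prime) : ‖lf X U p‖ ≤ (3 / 2 * X.n) * (p : ℝ) ^ (-(3 : ℝ) / 2) := by
  have hp0 : (0 : ℝ) < p := by exact_mod_cast hp.pos
  by_cases hb : p ∈ X.bad
  · rw [lf, if_pos hb, norm_zero]
    positivity
  · rw [lf, if_neg hb, norm_neg]
    refine (norm_multiset_sum_le _).trans ?_
    rw [Multiset.map_map]
    have h1 : ∀ x ∈ (X.frob p * proj X U).charpoly.roots.map
        (norm ∘ fun α => Complex.log (1 - ((p : ℂ) ^ 2)⁻¹ * α)),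
        x ≤ 3 / 2 * (p : ℝ) ^ (-(3 : ℝ) / 2) := by
      intro x hx
      obtain ⟨α, hα, rfl⟩ := Multiset.mem_map.mp hx
      have h2 := small X U hp hb hα
      have h3 : ‖Complex.log (1 + (-(((p : ℂ) ^ 2)⁻¹ * α)))‖ ≤ 3 / 2 * ‖-(((p : ℂ) ^ 2)⁻¹ * α)‖ :=
        Complex.norm_log_one_add_half_le_self (by
          rw [norm_neg]
          exact h2.trans (three_half hp))
      rw [norm_neg, ← sub_eq_add_neg] at h3
      change ‖Complex.log (1 - ((p : ℂ) ^ 2)⁻¹ * α)‖ ≤ _
      linarith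
    refine (Multiset.sum_le_card_nsmul _ _ h1).trans ?_
    have h5 : Multiset.card (X.frob p * proj X U).charpoly.roots = X.n := by
      have h2 : (X.frob p * proj X U).charpoly.Splits := IsAlgClosed.splits _
      rw [← h2.natDegree_eq_card_roots, Matrix.charpoly_natDegree_eq_dim, Fintype.card_fin]
    rw [Multiset.card_map, h5, nsmul_eq_mul]
    apply le_of_eq
    ring

lemma hasProd_factor : HasProd (fun p : Nat.Primes => eulerFactor X U p)
    (Complex.exp (∑' p : Nat.Primes, lf X U p)) := by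
  have h1 : Summable fun p : Nat.Primes => lf X U p := by
    refine Summable.of_norm_bounded
      ((Nat.Primes.summable_rpow.mpr (by norm_num : -(3 : ℝ) / 2 < -1)).mul_left
        (3 / 2 * (X.n : ℝ)))
      fun p => norm_lf X U p.2
  have h2 := h1.hasSum.cexp
  have h3 : (fun p : Nat.Primes => eulerFactor X U p)
      = Complex.exp ∘ fun p : Nat.Primes => lf X U p := by
    funext p
    exact (exp_lf X U p.2).symm
  rw [h3]
  exact h2

lemma LValue_eq : LValue X U = Complex.exp (∑' p : Nat.Primes, lf X U p) :=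
  (hasProd_factor X U).tprod_eq

lemma LValue_ne : LValue X U ≠ 0 := by
  rw [LValue_eq]
  exact Complex.exp_ne_zero _

lemma factor_ne {p : ℕ} (hp : p.Prime) : eulerFactor X U p ≠ 0 := by
  rw [← exp_lf X U hp]
  exact Complex.exp_ne_zero _

end fac

/-- the relation between the Euler factors -/
lemma factor_rel [Fintype (Subgroup G)] (c : Subgroup G → ℤ) (W : Subgroup G)
    (h : ∀ g : G, ∑ U, c U * (fx U g : ℤ) = fx W g) {p : ℕ}
    (hp : p.Prime) (hb : p ∉ X.bad) :
    ∏ U, eulerFactor X U p ^ c U = eulerFactor X W p := by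
  have h1 : ∀ U, eulerFactor X U p
      = (LinearMap.det (rs (tau X) (opA X p) (opA_comm X p) U))⁻¹ := by
    intro U
    rw [eulerFactor, if_neg hb, det_eq]
  have h2 : ∀ U, LinearMap.det (rs (tau X) (opA X p) (opA_comm X p) U) ≠ 0 := by
    intro U h0
    apply factor_ne X U hp
    rw [h1, h0, inv_zero]
  have h3 := det_rel' (tau X) (opA X p) (opA_comm X p) c W h fun U _ => h2 U
  rw [h1 W, ← h3, ← Finset.prod_inv_distrib]
  refine Finset.prod_congr rfl fun U _ => ?_
  rw [h1 U, inv_zpow]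

/-- the relation between the L-values -/
lemma LValue_rel [Fintype (Subgroup G)] (c : Subgroup G → ℤ) (W : Subgroup G)
    (h : ∀ g : G, ∑ U, c U * (fx U g : ℤ) = fx W g) :
    ∏ U, LValue X U ^ c U = LValue X W := by
  classical
  have h1 : Tendsto (fun s : Finset Nat.Primes => ∏ U, (∏ p ∈ s, eulerFactor X U p) ^ c U) atTop
      (𝓝 (∏ U, LValue X U ^ c U)) := by
    refine tendsto_finsetProd _ fun U _ => ?_
    have h2 := hasProd_factor X U
    rw [← LValue_eq] at h2
    exact Tendsto.zpow₀ h2 _ (Or.inl (LValue_ne X U))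
  have h2 : Tendsto (fun s : Finset Nat.Primes => ∏ p ∈ s, eulerFactor X W p) atTop
      (𝓝 (LValue X W)) := by
    have h2 := hasProd_factor X W
    rw [← LValue_eq] at h2
    exact h2
  refine tendsto_nhds_unique h1 (h2.congr fun s => ?_)
  have h3 : ∀ U, (∏ p ∈ s, eulerFactor X U p) ^ c U = ∏ p ∈ s, eulerFactor X U p ^ c U := by
    intro U
    rw [Finset.prod_zpow]
  rw [Finset.prod_congr rfl (fun U _ => h3 U), Finset.prod_comm]
  refine Finset.prod_congr rfl fun p _ => ?_
  by_cases hb : (p : ℕ) ∈ X.bad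
  · have h4 : ∀ U, eulerFactor X U p = 1 := fun U => by rw [eulerFactor, if_pos hb]
    rw [h4 W]
    symm
    exact Finset.prod_eq_one fun U _ => by rw [h4 U, one_zpow]
  · exact (factor_rel X c W h p.2 hb).symm

end Pool.Agent.K9h86.BQ
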