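import Mathlib
import Pool.Agent.K9h86.BQ.Lv

/-!
# Beilinson's conjecture for the quotient curves in a relation between permutation characters
-/

set_option autoImplicit false
set_option linter.unusedSectionVars false

namespace Pool.Agent.K9h86.BQ

open Module Pool.Agent.K9h86.BK Pool.Agent.K9h41.DC Pool.Agent.K4H74.SC

lemma prod_zpow {ι : Type} (s : Finset ι) {a : ℂ} (ha : a ≠ 0) (t : ι → ℤ) :
    ∏ i ∈ s, a ^ t i = a ^ ∑ i ∈ s, t i := by
  classical
  induction s using Finset.induction_on with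
  | empty => simp
  | insert x s hx ih => rw [Finset.prod_insert hx, Finset.sum_insert hx, ih, zpow_add₀ ha]

lemma prod_zpow_nat {ι : Type} (s : Finset ι) {a : ℂ} (ha : a ≠ 0) (t : ι → ℕ) (c : ι → ℤ) {r : ℕ}
    (h : ∑ i ∈ s, c i * (t i : ℤ) = r) : ∏ i ∈ s, (a ^ t i) ^ c i = a ^ r := by
  rw [← zpow_natCast, ← h, ← prod_zpow s ha]
  refine Finset.prod_congr rfl fun i _ => ?_
  rw [← zpow_natCast, ← zpow_mul, mul_comm]

variable {G : Type} [Group G] [Finite G] (X : CurveWithAction G)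

/-- the action on the motivic cohomology -/
noncomputable def repV : Representation ℚ G X.V where
  toFun g := (AddMonoidHom.mk' (X.actV g) (X.actV_add g)).toRatLinearMap
  map_one' := by
    apply LinearMap.ext
    intro ξ
    exact X.actV_one ξ
  map_mul' g g' := by
    apply LinearMap.ext
    intro ξ
    exact X.actV_mul g g' ξ

/-- the action on the homology -/
noncomputable def repH : Representation ℚ G (Fin X.m → ℚ) where
  toFun g := Matrix.toLin' (X.actH g)
  map_one' := by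
    rw [X.actH_one, Matrix.toLin'_one]
    rfl
  map_mul' g h := by
    rw [X.actH_mul, Matrix.toLin'_mul]
    rfl

lemma motivic_eq (U : Subgroup G) : motivic X U = fixd (repV X) U := rfl

lemma homology_eq (U : Subgroup G) : homologyMinus X U = fixd (repH X) U := rfl

lemma reg_smul (c : ℚ) (ξ : X.V) (i : Fin X.m) : X.reg (c • ξ) i = c • X.reg ξ i :=
  (AddMonoidHom.mk' (fun ξ => X.reg ξ i) (fun ξ η => X.reg_add ξ η i)).toRatLinearMap.map_smul c ξ

/-- the regulator pairing -/
noncomputable def pr : X.V →ₗ[ℚ] (Fin X.m → ℚ) →ₗ[ℚ] ℝ :=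
  LinearMap.mk₂ ℚ (pairing X)
    (fun ξ ξ' γ => by
      simp only [pairing, X.reg_add, add_mul, Finset.sum_add_distrib])
    (fun c ξ γ => by
      simp only [pairing, reg_smul, Finset.smul_sum, smul_mul_assoc])
    (fun ξ γ γ' => by
      simp only [pairing, Pi.add_apply, Rat.cast_add, mul_add, Finset.sum_add_distrib])
    (fun c ξ γ => by
      simp only [pairing, Pi.smul_apply, smul_eq_mul, Rat.cast_mul, Rat.smul_def,
        Finset.mul_sum]
      refine Finset.sum_congr rfl fun i _ => ?_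
      ring)

lemma pr_apply (ξ : X.V) (γ : Fin X.m → ℚ) : pr X ξ γ = pairing X ξ γ := rfl

lemma pr_inv (g : G) (ξ : X.V) (γ : Fin X.m → ℚ) :
    pr X (repV X g ξ) (repH X g γ) = pr X ξ γ := by
  change ∑ i, X.reg (X.actV g ξ) i * (((X.actH g).mulVec γ i : ℚ) : ℝ) = ∑ i, X.reg ξ i * γ i
  have h1 : ∀ i, X.reg (X.actV g ξ) i * (((X.actH g).mulVec γ i : ℚ) : ℝ)
      = ∑ j, X.reg (X.actV g ξ) i * X.actH g i j * γ j := by
    intro i
    rw [Matrix.mulVec, dotProduct]
    push_cast
    rw [Finset.mul_sum]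
    exact Finset.sum_congr rfl fun j _ => by ring
  rw [Finset.sum_congr rfl (fun i _ => h1 i), Finset.sum_comm]
  refine Finset.sum_congr rfl fun j _ => ?_
  rw [← Finset.sum_mul, X.reg_act]

theorem main (c : Subgroup G → ℤ)
    (hc : ∀ g : G, ∑ᶠ U : Subgroup G, c U * (permChar U g : ℤ) = 0) (W : Subgroup G)
    (hW : c W = 1 ∨ c W = -1) (h : ∀ U : Subgroup G, U ≠ W → c U ≠ 0 → Beilinson X U) :
    Beilinson X W := by
  classical
  have : Fintype (Subgroup G) := Fintype.ofFinite _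
  have hpi : (2 * (Real.pi : ℂ)) ≠ 0 := mul_ne_zero two_ne_zero (by exact_mod_cast Real.pi_ne_zero)
  let c' : Subgroup G → ℤ := fun U => if U = W then 0 else -(c W) * c U
  have hc'W : c' W = 0 := if_pos rfl
  have hsq : c W * c W = 1 := by
    rcases hW with h1 | h1 <;> rw [h1] <;> norm_num
  have hc' : ∀ g : G, ∑ U, c' U * (fx U g : ℤ) = fx W g := by
    intro g
    have h1 := hc g
    rw [finsum_eq_sum_of_fintype] at h1
    have h2 : ∀ U, c' U * (fx U g : ℤ) = -(c W) * (c U * (permChar U g : ℤ))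
        + if U = W then (permChar W g : ℤ) else 0 := by
      intro U
      by_cases hU : U = W
      · subst hU
        rw [hc'W, if_pos rfl, zero_mul, ← mul_assoc, neg_mul, hsq]
        ring
      · simp only [c', if_neg hU]
        rw [add_zero, mul_assoc]
        rfl
    rw [Finset.sum_congr rfl (fun U _ => h2 U), Finset.sum_add_distrib, ← Finset.mul_sum, h1,
      mul_zero, zero_add, Finset.sum_ite_eq' Finset.univ W, if_pos (Finset.mem_univ _)]
    rfl
  have hdim : ∑ U, c' U * (rank X U : ℤ) = (rank X W : ℤ) := dim_rel (repH X) c' W hc'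
  have h1 : ∀ U : Subgroup G, ∃ q : ℚ, q ≠ 0 ∧ (c' U ≠ 0 →
      ∃ (ξ : Basis (Fin (rank X U)) ℚ (fixd (repV X) U))
        (γ : Basis (Fin (rank X U)) ℚ (fixd (repH X) U)),
        (((Matrix.of fun i j => pr X (ξ i : X.V) (γ j : Fin X.m → ℚ)).det : ℝ) : ℂ)
          = q * (LValue X U / (2 * Real.pi) ^ (2 * rank X U))) := by
    intro U
    by_cases hU : c' U = 0
    · exact ⟨1, one_ne_zero, fun h0 => absurd hU h0⟩
    · have hUW : U ≠ W := fun h2 => hU (by rw [h2, hc'W])
      have hcU : c U ≠ 0 := fun h2 => hU (by simp only [c', if_neg hUW, h2, mul_zero])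
      obtain ⟨ξ, γ, q, hq, h2⟩ := h U hUW hcU
      exact ⟨q, hq, fun _ => ⟨ξ, γ, h2⟩⟩
  choose q hq h2 using h1
  obtain ⟨ξ, γ, r, hr, h3⟩ := rel (pr_inv X) c' W hc' _ _ hdim
    (fun U => q U * (LValue X U / (2 * Real.pi) ^ (2 * rank X U)))
    (fun U _ => mul_ne_zero (by exact_mod_cast hq U)
      (div_ne_zero (LValue_ne X U) (pow_ne_zero _ hpi))) h2
  refine ⟨ξ, γ, r * ∏ U, q U ^ c' U,
    mul_ne_zero hr (Finset.prod_ne_zero_iff.mpr fun U _ => zpow_ne_zero _ (hq U)), ?_⟩
  refine Eq.trans h3 ?_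
  have h4 : ∏ U, (q U * (LValue X U / (2 * Real.pi) ^ (2 * rank X U)) : ℂ) ^ c' U
      = (∏ U, (q U : ℂ) ^ c' U) * (LValue X W / (2 * Real.pi) ^ (2 * rank X W)) := by
    simp only [mul_zpow, div_zpow]
    rw [Finset.prod_mul_distrib, Finset.prod_div_distrib, LValue_rel X c' W hc']
    congr 2
    refine prod_zpow_nat _ hpi _ _ ?_
    have h5 : ∑ U, c' U * ((2 * rank X U : ℕ) : ℤ) = 2 * ∑ U, c' U * (rank X U : ℤ) := by
      rw [Finset.mul_sum]
      refine Finset.sum_congr rfl fun U _ => ?_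
      push_cast
      ring
    rw [h5, hdim]
    push_cast
    ring
  rw [h4]
  push_cast
  ring

end Pool.Agent.K9h86.BQ
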